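import Pool.Agent.Helper32.KD2.Basic
import Pool.Agent.Helper37.KD.Basic
/-! KD2-G1: effect of the noise (II.5) -/
namespace KD.II.G1
open Finset MeasureTheory

theorem nrm_nonneg {d N : ℕ} {R : ℝ} (hR : 0 < R) (w : GG d N) : 0 ≤ nrm 1 R w := by
  unfold nrm n1
  positivity

theorem noise_markov {d N : ℕ} [NeZero N] {R Cs : ℝ} (hR : 0 < R) (hCs : 0 < Cs)
    (q0 : GG d N → ℝ) (hq : ∀ z, 0 ≤ q0 z) (hq1 : ∑ z, q0 z = 1)
    (hm : ∑ z, q0 z * nrm 1 R z ≤ Cs) (μ : GG d N → ℝ) (hμ : ∀ z, 0 ≤ μ z)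
    (B A : Finset (GG d N))
    (hBA : ∀ z ∈ B, ∀ w, nrm 1 R w ≤ 2 * Cs → z + w ∈ A) :
    ∑ z ∈ B, μ z ≤ 2 * ∑ z ∈ A, cv q0 μ z := by
  classical
  have hS : 0 ≤ ∑ z ∈ B, μ z := Finset.sum_nonneg (fun z _ => hμ z)
  -- Markov
  have hmk : (1 : ℝ) / 2 ≤ ∑ w ∈ univ.filter (fun w : GG d N => nrm 1 R w ≤ 2 * Cs), q0 w := by
    have h1 : ∑ w ∈ univ.filter (fun w : GG d N => nrm 1 R w ≤ 2 * Cs), q0 w
        + ∑ w ∈ univ.filter (fun w : GG d N => ¬ nrm 1 R w ≤ 2 * Cs), q0 w = 1 := by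
      rw [Finset.sum_filter_add_sum_filter_not]; exact hq1
    have h2 : ∑ w ∈ univ.filter (fun w : GG d N => ¬ nrm 1 R w ≤ 2 * Cs), q0 w * (2 * Cs)
        ≤ Cs := by
      refine le_trans ?_ hm
      refine le_trans (Finset.sum_le_sum (g := fun w => q0 w * nrm 1 R w) ?_) ?_
      · intro w hw
        have : ¬ nrm 1 R w ≤ 2 * Cs := (Finset.mem_filter.1 hw).2
        exact mul_le_mul_of_nonneg_left (not_le.1 this).le (hq w)
      · exact Finset.sum_le_univ_sum_of_nonneg (fun w => mul_nonneg (hq w) (nrm_nonneg hR w))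
    rw [← Finset.sum_mul] at h2
    nlinarith
  have hcv : ∑ z ∈ A, cv q0 μ z = ∑ w, q0 w * ∑ z ∈ A, μ (z - w) := by
    unfold cv
    rw [Finset.sum_comm]
    exact Finset.sum_congr rfl (fun w _ => by rw [Finset.mul_sum])
  have hlow : ∀ w : GG d N, nrm 1 R w ≤ 2 * Cs → ∑ z ∈ B, μ z ≤ ∑ z ∈ A, μ (z - w) := by
    intro w hw
    have h1 : ∑ z ∈ B, μ z = ∑ z ∈ B.image (fun z => z + w), μ (z - w) := by
      rw [Finset.sum_image (fun a _ b _ h => by simpa using h)]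
      exact Finset.sum_congr rfl (fun z _ => by simp)
    rw [h1]
    refine Finset.sum_le_sum_of_subset_of_nonneg ?_ (fun z _ _ => hμ _)
    intro y hy
    obtain ⟨z, hz, rfl⟩ := Finset.mem_image.1 hy
    exact hBA z hz w hw
  rw [hcv]
  have h3 : (∑ w ∈ univ.filter (fun w : GG d N => nrm 1 R w ≤ 2 * Cs), q0 w) * ∑ z ∈ B, μ z
      ≤ ∑ w, q0 w * ∑ z ∈ A, μ (z - w) := by
    rw [Finset.sum_mul]
    refine le_trans (Finset.sum_le_sum (g := fun w => q0 w * ∑ z ∈ A, μ (z - w)) ?_) ?_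
    · intro w hw
      exact mul_le_mul_of_nonneg_left (hlow w (Finset.mem_filter.1 hw).2) (hq w)
    · exact Finset.sum_le_univ_sum_of_nonneg
        (fun w => mul_nonneg (hq w) (Finset.sum_nonneg (fun z _ => hμ _)))
  nlinarith

end KD.II.G1
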