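import Pool.Agent.Helper32.KD2.Basic
/-! KD2-G2: counting lattice points in kinetic boxes (II.5) -/
namespace KD.II.G2
open Finset MeasureTheory

theorem cnt {a L c : ℝ} (ha : 0 < a) (hL : 0 ≤ L) (S : Finset ℤ)
    (h : ∀ m ∈ S, 0 ≤ a * m - c ∧ a * m - c ≤ L) : (S.card : ℝ) ≤ L / a + 1 := by
  have hsub : S ⊆ Finset.Icc ⌈c / a⌉ ⌊(c + L) / a⌋ := by
    intro m hm
    obtain ⟨h1, h2⟩ := h m hm
    rw [Finset.mem_Icc]
    constructor
    · rw [Int.ceil_le, div_le_iff₀ ha]; linarith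
    · rw [Int.le_floor, le_div_iff₀ ha]; linarith
  have h1 : (S.card : ℝ) ≤ ((⌊(c + L) / a⌋ + 1 - ⌈c / a⌉).toNat : ℝ) := by
    have := Finset.card_le_card hsub
    rw [Int.card_Icc] at this
    exact_mod_cast this
  refine h1.trans ?_
  rcases le_total 0 (⌊(c + L) / a⌋ + 1 - ⌈c / a⌉) with h0 | h0
  · have h2 : ((⌊(c + L) / a⌋ + 1 - ⌈c / a⌉).toNat : ℝ) =
        ((⌊(c + L) / a⌋ + 1 - ⌈c / a⌉ : ℤ) : ℝ) := by
      have := Int.toNat_of_nonneg h0
      exact_mod_cast congrArg (fun z : ℤ => (z : ℝ)) this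
    rw [h2]
    push_cast
    have h3 := Int.floor_le ((c + L) / a)
    have h4 := Int.le_ceil (c / a)
    have h5 : (c + L) / a = c / a + L / a := add_div _ _ _
    linarith
  · rw [Int.toNat_of_nonpos h0]
    have : 0 ≤ L / a := div_nonneg hL ha.le
    simp only [Nat.cast_zero]
    linarith

/-- the version for residues -/
theorem cntZ {N : ℕ} [NeZero N] {a L c : ℝ} (ha : 0 < a) (hL : 0 ≤ L) (S : Finset (ZMod N))
    (h : ∀ y ∈ S, 0 ≤ a * (y.valMinAbs : ℝ) - c ∧ a * (y.valMinAbs : ℝ) - c ≤ L) :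
    (S.card : ℝ) ≤ L / a + 1 := by
  classical
  have h1 : (S.image (fun y => y.valMinAbs)).card = S.card :=
    Finset.card_image_of_injective _ ZMod.injective_valMinAbs
  rw [← h1]
  refine cnt ha hL (c := c) _ ?_
  intro m hm
  obtain ⟨y, hy, rfl⟩ := Finset.mem_image.1 hm
  exact h y hy

open Classical in
theorem count_box {d N : ℕ} [NeZero N] (κ h : ℝ) (hκ : 0 < κ) (hh : 0 < h) (tb : ℝ)
    (xb vb : Vd d) (α ξ β : ℝ) (hα : 0 ≤ α) (hξ : 0 ≤ ξ) (hβ : 0 ≤ β) (T : ℕ) :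
    ∑ n ∈ range T, ((univ.filter (fun z : GG d N =>
      ((-(n * κ) : ℝ), px κ h z, pv h z) ∈ KBox tb xb vb α ξ β)).card : ℝ) ≤
      (α / κ + 1) * (β / h + 1) ^ d * (ξ / (κ * h) + 1) ^ d := by
  -- for fixed `n`
  have hC : ∀ n : ℕ, ((univ.filter (fun z : GG d N =>
      ((-(n * κ) : ℝ), px κ h z, pv h z) ∈ KBox tb xb vb α ξ β)).card : ℝ) ≤
      (β / h + 1) ^ d * (ξ / (κ * h) + 1) ^ d := by
    intro n
    set Sx : Fin d → Finset (ZMod N) := fun i => univ.filter (fun y : ZMod N =>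
      0 ≤ -((κ * h) * (y.valMinAbs : ℝ)) - xb i - (-(n * κ) - tb) * vb i ∧
      -((κ * h) * (y.valMinAbs : ℝ)) - xb i - (-(n * κ) - tb) * vb i ≤ ξ) with hSx
    set Sv : Fin d → Finset (ZMod N) := fun i => univ.filter (fun y : ZMod N =>
      0 ≤ h * (y.valMinAbs : ℝ) - vb i ∧ h * (y.valMinAbs : ℝ) - vb i ≤ β) with hSv
    have hsub : (univ.filter (fun z : GG d N =>
        ((-(n * κ) : ℝ), px κ h z, pv h z) ∈ KBox tb xb vb α ξ β)) ⊆
        (Fintype.piFinset Sx) ×ˢ (Fintype.piFinset Sv) := by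
      intro z hz
      have hz' := (Finset.mem_filter.1 hz).2
      obtain ⟨_, _, h3, h4⟩ := hz'
      rw [Finset.mem_product, Fintype.mem_piFinset, Fintype.mem_piFinset]
      constructor
      · intro i
        have := h3 i
        simp only [px, rl, Pi.neg_apply, Pi.smul_apply, smul_eq_mul] at this
        exact Finset.mem_filter.2 ⟨Finset.mem_univ _, this⟩
      · intro i
        have := h4 i
        simp only [pv, rl, Pi.smul_apply, smul_eq_mul] at this
        exact Finset.mem_filter.2 ⟨Finset.mem_univ _, this⟩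
    have hcard := Finset.card_le_card hsub
    rw [Finset.card_product, Fintype.card_piFinset, Fintype.card_piFinset] at hcard
    have hκh : 0 < κ * h := mul_pos hκ hh
    have hx : ∀ i, ((Sx i).card : ℝ) ≤ ξ / (κ * h) + 1 := by
      intro i
      refine cntZ hκh hξ (c := -xb i - (-(n * κ) - tb) * vb i - ξ) _ ?_
      intro y hy
      obtain ⟨h1, h2⟩ := (Finset.mem_filter.1 hy).2
      constructor <;> linarith
    have hv : ∀ i, ((Sv i).card : ℝ) ≤ β / h + 1 := by
      intro i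
      refine cntZ hh hβ (c := vb i) _ ?_
      intro y hy
      exact (Finset.mem_filter.1 hy).2
    have hpx : ∏ i, ((Sx i).card : ℝ) ≤ (ξ / (κ * h) + 1) ^ d := by
      refine (Finset.prod_le_prod (fun i _ => Nat.cast_nonneg _) (fun i _ => hx i)).trans ?_
      simp
    have hpv : ∏ i, ((Sv i).card : ℝ) ≤ (β / h + 1) ^ d := by
      refine (Finset.prod_le_prod (fun i _ => Nat.cast_nonneg _) (fun i _ => hv i)).trans ?_
      simp
    calc ((univ.filter (fun z : GG d N =>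
        ((-(n * κ) : ℝ), px κ h z, pv h z) ∈ KBox tb xb vb α ξ β)).card : ℝ)
        ≤ (∏ i, ((Sx i).card : ℝ)) * ∏ i, ((Sv i).card : ℝ) := by exact_mod_cast hcard
      _ ≤ (ξ / (κ * h) + 1) ^ d * (β / h + 1) ^ d :=
          mul_le_mul hpx hpv (Finset.prod_nonneg (fun i _ => Nat.cast_nonneg _)) (by positivity)
      _ = _ := mul_comm _ _
  -- the set of admissible `n`
  set D : ℝ := (β / h + 1) ^ d * (ξ / (κ * h) + 1) ^ d with hD
  have hD0 : 0 ≤ D := by positivity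
  set P : Finset ℕ := (range T).filter (fun n : ℕ => 0 ≤ -(n * κ) - tb ∧ -(n * κ) - tb ≤ α)
    with hP
  have h0 : ∀ n ∈ range T, n ∉ P → ((univ.filter (fun z : GG d N =>
      ((-(n * κ) : ℝ), px κ h z, pv h z) ∈ KBox tb xb vb α ξ β)).card : ℝ) = 0 := by
    intro n hn hnP
    rw [Finset.filter_eq_empty_iff.2]
    · simp
    · intro z _ hz
      obtain ⟨h1, h2, _, _⟩ := hz
      exact hnP (Finset.mem_filter.2 ⟨hn, h1, h2⟩)
  rw [← Finset.sum_subset (Finset.filter_subset _ _) h0]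
  have hPc : (P.card : ℝ) ≤ α / κ + 1 := by
    have h1 : (P.image (fun n : ℕ => (n : ℤ))).card = P.card :=
      Finset.card_image_of_injective _ Nat.cast_injective
    rw [← h1]
    refine cnt hκ hα (c := -tb - α) _ ?_
    intro m hm
    obtain ⟨n, hn, rfl⟩ := Finset.mem_image.1 hm
    obtain ⟨h2, h3⟩ := (Finset.mem_filter.1 hn).2
    push_cast
    constructor <;> linarith
  calc ∑ n ∈ P, ((univ.filter (fun z : GG d N =>
      ((-(n * κ) : ℝ), px κ h z, pv h z) ∈ KBox tb xb vb α ξ β)).card : ℝ)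
      ≤ ∑ _n ∈ P, D := Finset.sum_le_sum (fun n _ => hC n)
    _ = P.card * D := by rw [Finset.sum_const, nsmul_eq_mul]
    _ ≤ (α / κ + 1) * D := mul_le_mul_of_nonneg_right hPc hD0
    _ = _ := by rw [hD]; ring

end KD.II.G2
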